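import Pool.Agent.Helper70.ML.St

/-!
# Project ML, module PT0: from one point to a finite set with few lazy steps
-/

set_option autoImplicit false

namespace Pool.Agent.Helper72.ML

open Pool.Agent.Helper70.ML Pool.Agent.Helper75.MX

variable {X : Type}

private theorem apX_add (l : List (Equiv.Perm X × ℝ)) (μ ν : X → ℝ) :
    apX l (μ + ν) = apX l μ + apX l ν := by
  induction l with
  | nil => rfl
  | cons e l ih =>
    have h1 : ∀ ρ : X → ℝ, apX (e :: l) ρ = lzX e.1 e.2 (apX l ρ) := fun ρ => rfl
    rw [h1, h1, h1, ih]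
    funext x
    simp only [lzX, Pi.add_apply]
    ring

private theorem apX_smul (l : List (Equiv.Perm X × ℝ)) (c : ℝ) (μ : X → ℝ) :
    apX l (c • μ) = c • apX l μ := by
  induction l with
  | nil => rfl
  | cons e l ih =>
    have h1 : ∀ ρ : X → ℝ, apX (e :: l) ρ = lzX e.1 e.2 (apX l ρ) := fun ρ => rfl
    rw [h1, h1, ih]
    funext x
    simp only [lzX, Pi.smul_apply, smul_eq_mul]
    ring

private theorem apX_append (l m : List (Equiv.Perm X × ℝ)) (μ : X → ℝ) :
    apX (l ++ m) μ = apX l (apX m μ) := by
  simp only [apX, List.foldr_append]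

private theorem apX_fix [DecidableEq X] (l : List (Equiv.Perm X × ℝ)) (y : X)
    (h : ∀ e ∈ l, e.1 y = y) :
    apX l (fun x : X => if x = y then (1 : ℝ) else 0) = fun x => if x = y then (1 : ℝ) else 0 := by
  induction l with
  | nil => rfl
  | cons e l ih =>
    have h1 : ∀ ρ : X → ℝ, apX (e :: l) ρ = lzX e.1 e.2 (apX l ρ) := fun ρ => rfl
    rw [h1, ih (fun e' he' => h e' (List.mem_cons_of_mem _ he'))]
    have he : e.1 y = y := h e List.mem_cons_self
    funext x
    have h2 : (e.1⁻¹ • x = y) ↔ x = y := by
      rw [Equiv.Perm.smul_def]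
      constructor
      · intro h3
        rw [Equiv.Perm.inv_eq_iff_eq] at h3
        rw [h3, he]
      · intro h3
        rw [Equiv.Perm.inv_eq_iff_eq, h3, he]
    simp only [lzX, h2]
    ring

private theorem exists_swap [DecidableEq X] (A B : Finset X) (hd : Disjoint A B)
    (hc : A.card = B.card) :
    ∃ π : Equiv.Perm X, π⁻¹ = π ∧ (∀ x ∈ A, π x ∈ B) ∧ (∀ x ∈ B, π x ∈ A) ∧
      (∀ x, x ∉ A → x ∉ B → π x = x) := by
  classical
  obtain ⟨e⟩ : Nonempty (A ≃ B) := ⟨Finset.equivOfCardEq hc⟩
  let f : X → X := fun x => if h : x ∈ A then (e ⟨x, h⟩ : X) else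
    if h : x ∈ B then (e.symm ⟨x, h⟩ : X) else x
  have fA : ∀ x (h : x ∈ A), f x = (e ⟨x, h⟩ : X) := by
    intro x h
    simp only [f, h, dif_pos]
  have fB : ∀ x (h : x ∈ B), f x = (e.symm ⟨x, h⟩ : X) := by
    intro x h
    have h' : x ∉ A := fun h1 => (Finset.disjoint_left.1 hd h1) h
    simp only [f, h, h', dif_pos, dif_neg, not_false_iff]
  have fN : ∀ x, x ∉ A → x ∉ B → f x = x := by
    intro x h1 h2
    simp only [f, h1, h2, dif_neg, not_false_iff]
  have hf : Function.Involutive f := by
    intro x
    by_cases h1 : x ∈ A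
    · rw [fA x h1, fB _ (e ⟨x, h1⟩).2]
      simp
    · by_cases h2 : x ∈ B
      · rw [fB x h2, fA _ (e.symm ⟨x, h2⟩).2]
        simp
      · rw [fN x h1 h2, fN x h1 h2]
  refine ⟨hf.toPerm f, ?_, ?_, ?_, ?_⟩
  · exact Equiv.ext fun x => rfl
  · intro x hx
    change f x ∈ B
    rw [fA x hx]
    exact (e ⟨x, hx⟩).2
  · intro x hx
    change f x ∈ A
    rw [fB x hx]
    exact (e.symm ⟨x, hx⟩).2
  · intro x h1 h2
    change f x = x
    exact fN x h1 h2

private theorem core [DecidableEq X] (n : ℕ) : ∀ (A : Finset X), A.card = n → ∀ a ∈ A,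
    ∃ l : List (Equiv.Perm X × ℝ), l.length + (1 - n % 2) ≤ 2 * Nat.log 2 n ∧ Ok l ∧
      (∀ e ∈ l, ∀ x, x ∉ A → e.1 x = x) ∧
      apX l (fun x : X => if x = a then (1 : ℝ) else 0) =
        fun x => if x ∈ A then 1 / (n : ℝ) else 0 := by
  induction n using Nat.strong_induction_on with
  | _ n ih =>
  intro A hA a ha
  have hn : 0 < n := by
    rw [← hA]
    exact Finset.card_pos.2 ⟨a, ha⟩
  rcases Nat.even_or_odd' n with ⟨k, hk | hk⟩
  · -- even
    have hk0 : 0 < k := by omega
    obtain ⟨A', hA1, hA2, hA3⟩ := Finset.exists_subsuperset_card_eq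
      (Finset.singleton_subset_iff.2 ha) (n := k) (by rw [Finset.card_singleton]; omega) (by omega)
    have haA' : a ∈ A' := Finset.singleton_subset_iff.1 hA1
    obtain ⟨l, hl1, hl2, hl3, hl4⟩ := ih k (by omega) A' hA3 a haA'
    have hB : (A \ A').card = k := by
      rw [Finset.card_sdiff_of_subset hA2]
      omega
    obtain ⟨π, hπ, hπ1, hπ2, hπ3⟩ := exists_swap A' (A \ A') Finset.disjoint_sdiff
      (by rw [hA3, hB])
    refine ⟨(π, 1 / 2) :: l, ?_, ?_, ?_, ?_⟩
    · have h1 : Nat.log 2 n = Nat.log 2 k + 1 := by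
        rw [hk, mul_comm, Nat.log_mul_base (by norm_num) (by omega)]
      simp only [List.length_cons]
      omega
    · intro e he
      rcases List.mem_cons.1 he with h1 | h1
      · rw [h1]
        norm_num
      · exact hl2 e h1
    · intro e he x hx
      have hx1 : x ∉ A' := fun h => hx (hA2 h)
      rcases List.mem_cons.1 he with h1 | h1
      · rw [h1]
        exact hπ3 x hx1 (fun h => hx (Finset.mem_sdiff.1 h).1)
      · exact hl3 e h1 x hx1
    · have h1 : ∀ ρ : X → ℝ, apX ((π, 1 / 2) :: l) ρ = lzX π (1 / 2) (apX l ρ) :=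
        fun ρ => rfl
      rw [h1, hl4]
      funext x
      have hkR : (k : ℝ) ≠ 0 := by positivity
      have hnR : (n : ℝ) = 2 * k := by
        rw [hk]
        push_cast
        ring
      simp only [lzX, Equiv.Perm.smul_def, hπ]
      by_cases hx : x ∈ A
      · by_cases hx' : x ∈ A'
        · have h2 : π x ∉ A' := (Finset.mem_sdiff.1 (hπ1 x hx')).2
          simp only [hx, hx', h2, if_true, if_false, hnR]
          field_simp
          ring
        · have h2 : π x ∈ A' := hπ2 x (Finset.mem_sdiff.2 ⟨hx, hx'⟩)
          simp only [hx, hx', h2, if_true, if_false, hnR]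
          field_simp
          ring
      · have hx' : x ∉ A' := fun h => hx (hA2 h)
        have h2 : π x = x := hπ3 x hx' (fun h => hx (Finset.mem_sdiff.1 h).1)
        simp only [hx, hx', h2, if_false]
        ring
  · -- odd
    rcases Nat.eq_zero_or_pos k with hk0 | hk0
    · have hn1 : n = 1 := by omega
      refine ⟨[], ?_, ?_, ?_, ?_⟩
      · rw [hn1]
        simp
      · intro e he
        simp at he
      · intro e he
        simp at he
      · rw [hn1] at hA
        obtain ⟨b, hb⟩ := Finset.card_eq_one.1 hA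
        have hab : a = b := by
          rw [hb] at ha
          exact Finset.mem_singleton.1 ha
        funext x
        simp only [apX, List.foldr_nil, hb, Finset.mem_singleton, hab, hn1]
        simp
    · obtain ⟨a₁, ha₁, hne⟩ : ∃ a₁ ∈ A, a₁ ≠ a := by
        apply Finset.exists_mem_ne
        omega
      have haA : a ∈ A.erase a₁ := Finset.mem_erase.2 ⟨fun h => hne h.symm, ha⟩
      have hcard : (A.erase a₁).card = 2 * k := by
        rw [Finset.card_erase_of_mem ha₁]
        omega
      obtain ⟨l, hl1, hl2, hl3, hl4⟩ := ih (2 * k) (by omega) (A.erase a₁) hcard a haA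
      have hnR : (n : ℝ) = 2 * k + 1 := by
        rw [hk]
        push_cast
        ring
      have hkR : (0 : ℝ) < k := by positivity
      refine ⟨l ++ [(Equiv.swap a a₁, 1 / (n : ℝ))], ?_, ?_, ?_, ?_⟩
      · have h1 : Nat.log 2 (2 * k) = Nat.log 2 k + 1 := by
          rw [mul_comm, Nat.log_mul_base (by norm_num) (by omega)]
        have h2 : Nat.log 2 (2 * k) ≤ Nat.log 2 n := Nat.log_mono_right (by omega)
        simp only [List.length_append, List.length_singleton]
        omega
      · intro e he
        rcases List.mem_append.1 he with h1 | h1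
        · exact hl2 e h1
        · rw [List.mem_singleton.1 h1]
          constructor
          · change (0 : ℝ) ≤ 1 / (n : ℝ)
            positivity
          · change 1 / (n : ℝ) ≤ 1
            rw [hnR, div_le_one (by positivity)]
            linarith
      · intro e he x hx
        rcases List.mem_append.1 he with h1 | h1
        · exact hl3 e h1 x (fun h => hx (Finset.mem_erase.1 h).2)
        · rw [List.mem_singleton.1 h1]
          apply Equiv.swap_apply_of_ne_of_ne
          · intro h
            exact hx (h ▸ ha)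
          · intro h
            exact hx (h ▸ ha₁)
      · have hfix : ∀ e ∈ l, e.1 a₁ = a₁ := fun e he => hl3 e he a₁ (Finset.notMem_erase a₁ A)
        have h3 : apX [(Equiv.swap a a₁, 1 / (n : ℝ))] (fun x : X => if x = a then (1 : ℝ) else 0)
            = (1 - 1 / (n : ℝ)) • (fun x : X => if x = a then (1 : ℝ) else 0) +
              (1 / (n : ℝ)) • (fun x : X => if x = a₁ then (1 : ℝ) else 0) := by
          funext x
          have h4 : ((Equiv.swap a a₁)⁻¹ x = a) ↔ x = a₁ := by
            rw [Equiv.Perm.inv_eq_iff_eq, Equiv.swap_apply_left]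
          simp only [apX, List.foldr_cons, List.foldr_nil, lzX, Pi.add_apply, Pi.smul_apply,
            smul_eq_mul, Equiv.Perm.smul_def, h4]
        rw [apX_append, h3, apX_add, apX_smul, apX_smul, hl4, apX_fix l a₁ hfix]
        funext x
        have hk2 : ((2 * k : ℕ) : ℝ) = 2 * k := by push_cast; ring
        simp only [Pi.add_apply, Pi.smul_apply, smul_eq_mul, hk2, hnR, Finset.mem_erase]
        by_cases hx : x ∈ A
        · by_cases hx' : x = a₁
          · simp only [hx', ha₁, ne_eq, not_true_eq_false, false_and, if_true, if_false]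
            ring
          · simp only [hx, hx', ne_eq, not_false_eq_true, true_and, if_true, if_false]
            field_simp
            ring
        · have hx' : x ≠ a₁ := fun h => hx (h ▸ ha₁)
          simp only [hx, hx', and_false, if_false]
          ring

/-- PT0: from one point to a finite set -/
theorem hPT0 : StPT0 := by
  intro X _ _ A a ha
  obtain ⟨l, hl1, hl2, hl3, hl4⟩ := core A.card A rfl a ha
  exact ⟨l, by omega, hl2, hl3, hl4⟩

end Pool.Agent.Helper72.ML
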